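import Mathlib
import Pool.Agent.Work.MP_4545a8_an.Ex.MinPer

set_option autoImplicit false

/-!
# Common periodic points of commuting interval maps: periodic points outside an invariant interval
-/

namespace Pool.Agent.Results.MP_4545a8_an.InvariantIntervals

open Set Function Topology
open Pool.Agent.MP4545 Pool.Agent.MP4545.Ex

/-- Let `f, g` be commuting continuous self-maps of `[a,b]` and `J` a closed interval which is mapped
into itself by `f^r` and by `g^s` for some `r, s ≥ 1`. If some periodic point of some `f^k ∘ g^l`,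
`k, l ≥ 1`, does not lie in `J`, then `f` and `g` have a common periodic point. -/
theorem result (a b : ℝ) (f g : C(Icc a b, Icc a b)) (hfg : ⇑f ∘ ⇑g = ⇑g ∘ ⇑f)
    (J : Set (Icc a b)) (hJ1 : IsClosed J) (hJ2 : OrdConnected J) (hJ3 : J.Nonempty) (r s : ℕ)
    (hr : 0 < r) (hs : 0 < s) (hJf : MapsTo f^[r] J J) (hJg : MapsTo g^[s] J J) (k l : ℕ)
    (hk : 0 < k) (hl : 0 < l) (z : Icc a b) (hz : z ∈ periodicPts (f^[k] ∘ g^[l])) (hzJ : z ∉ J) :
    (periodicPts ⇑f ∩ periodicPts ⇑g).Nonempty := by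
  by_contra hno
  have hab : a ≤ b := z.2.1.trans z.2.2
  have hc : Function.Commute ⇑f ⇑g := fun x => congrFun hfg x
  have S := ext_sys (hab := hab) f.continuous g.continuous hc
  have hno' : NoCommon (ext hab f) (ext hab g) := by
    intro x n m hn hm h1 h2
    have hx : x ∈ Icc a b := by
      obtain ⟨k, rfl⟩ : ∃ k, n = k + 1 := ⟨n - 1, by omega⟩
      rw [← h1, iterate_succ_apply']
      exact (f _).2
    apply hno
    refine ⟨⟨x, hx⟩, ⟨n, hn, ?_⟩, ⟨m, hm, ?_⟩⟩
    · apply Subtype.ext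
      rw [← ext_iter (hab := hab)]; exact h1
    · apply Subtype.ext
      rw [← ext_iter (hab := hab)]; exact h2
  have hmaps : ∀ (w : Icc a b → Icc a b) (p : ℕ), MapsTo w^[p] J J →
      MapsTo (ext hab w)^[p] (Subtype.val '' J) (Subtype.val '' J) := by
    rintro w p h _ ⟨u, hu, rfl⟩
    rw [ext_iter]
    exact mem_image_of_mem _ (h hu)
  have hord : OrdConnected (Subtype.val '' J : Set ℝ) := by
    constructor
    rintro _ ⟨u, hu, rfl⟩ _ ⟨v, hv, rfl⟩ w hw
    have hwI : w ∈ Icc a b := ⟨u.2.1.trans hw.1, hw.2.trans v.2.2⟩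
    exact ⟨⟨w, hwI⟩, hJ2.out hu hv ⟨hw.1, hw.2⟩, rfl⟩
  obtain ⟨n, hn, hzn⟩ := hz
  have hzn' : ((ext hab f)^[k] ∘ (ext hab g)^[l])^[n] (z : ℝ) = z := by
    have hs : Function.Semiconj (Subtype.val : Icc a b → ℝ) (f^[k] ∘ g^[l])
        ((ext hab f)^[k] ∘ (ext hab g)^[l]) := fun t => by
      show ((f^[k] (g^[l] t) : Icc a b) : ℝ) = (ext hab f)^[k] ((ext hab g)^[l] (t : ℝ))
      rw [ext_iter, ext_iter]
    rw [← (hs.iterate_right n).eq z]
    exact congrArg Subtype.val hzn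
  have h1 : (z : ℝ) ∈ (Subtype.val '' J : Set ℝ) := by
    refine word_per S hno' (isClosed_Icc.isClosedEmbedding_subtypeVal.isClosedMap _ hJ1)
      hord (hJ3.image _) ?_ hr hs (hmaps f r hJf) (hmaps g s hJg) hk hl hn hzn'
    rintro _ ⟨u, -, rfl⟩
    exact u.2
  obtain ⟨u, hu, huz⟩ := h1
  exact hzJ (by rwa [← Subtype.ext huz])

end Pool.Agent.Results.MP_4545a8_an.InvariantIntervals
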