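import Mathlib
import Pool.Agent.Work.MP_4545a8_an.NonCross2

set_option autoImplicit false

/-!
# Common periodic points of commuting interval maps: fixed points without crossing

`f, g : [a,b] → [a,b]` continuous and commuting, `h = f^k ∘ g^l` with `k, l ≥ 1`.
-/

namespace Pool.Agent.Results.MP_4545a8_an.NonCrossing

open Set Function Topology Filter
open Pool.Agent.MP4545

variable {a b : ℝ}

lemma word_ext (hab : a ≤ b) (f g : Icc a b → Icc a b) (s t : ℕ) (x : Icc a b) :
    (ext hab f)^[s] ((ext hab g)^[t] (x : ℝ)) = (f^[s] (g^[t] x) : Icc a b) := by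
  rw [ext_iter, ext_iter]

lemma ext_outside (hab : a ≤ b) (g : Icc a b → Icc a b) {t : ℕ} (ht : 0 < t) (u : ℝ) :
    (ext hab g)^[t] u = (ext hab g)^[t] ((projIcc a b hab u : Icc a b) : ℝ) := by
  obtain ⟨j, rfl⟩ : ∃ j, t = j + 1 := ⟨t - 1, by omega⟩
  rw [iterate_succ_apply, iterate_succ_apply, ext_val]
  rfl

/-- Let `f, g` be commuting continuous self-maps of `[a,b]` and `h = f^k ∘ g^l`, `k, l ≥ 1`.

(1) Suppose that every nonempty perfect set `M` of fixed points of `h` with `f(M) = M = g(M)` which
is a minimal set of the pair `f, g` contains uncountably many points `z` which `h` does not cross: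
for some `δ > 0`, `h` maps no point of `(z - δ, z)` to a point on the right of `z` and no point of
`(z, z + δ)` to a point on the left of `z`. Then `f` and `g` have a common periodic point.

(2) Suppose that all but countably many fixed points `z` of `h` are such that `h` is
differentiable at `z` or `z` is isolated in the fibre `h⁻¹(z)`. Then `f` and `g` have a common
periodic point. -/
theorem result (a b : ℝ) (hab : a ≤ b) (f g : C(Icc a b, Icc a b)) (hfg : ⇑f ∘ ⇑g = ⇑g ∘ ⇑f)
    (k l : ℕ) (hk : 0 < k) (hl : 0 < l) :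
    ((∀ M : Set (Icc a b), (∀ z ∈ M, f^[k] (g^[l] z) = z) → Perfect M → M.Nonempty →
        f '' M = M → g '' M = M →
        (∀ C ⊆ M, IsClosed C → C.Nonempty → MapsTo f C C → MapsTo g C C → C = M) →
        ¬ {z ∈ M | ∃ δ > 0, ∀ u : Icc a b, |(u : ℝ) - z| < δ →
          0 ≤ (((f^[k] (g^[l] u) : Icc a b) : ℝ) - z) * (u - z)}.Countable) →
      (periodicPts ⇑f ∩ periodicPts ⇑g).Nonempty) ∧
    ({z : Icc a b | f^[k] (g^[l] z) = z ∧
        ¬ (DifferentiableWithinAt ℝ
            (IccExtend hab fun x : Icc a b => ((f^[k] (g^[l] x) : Icc a b) : ℝ)) (Icc a b) z ∨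
          ∃ δ > 0, ∀ u : Icc a b, |(u : ℝ) - z| < δ → f^[k] (g^[l] u) = z → u = z)}.Countable →
      (periodicPts ⇑f ∩ periodicPts ⇑g).Nonempty) := by
  have hc : Function.Commute ⇑f ⇑g := fun x => congrFun hfg x
  have S := ext_sys (hab := hab) f.continuous g.continuous hc
  have hfin : (∃ x ∈ Icc a b, x ∈ periodicPts (ext hab f) ∩ periodicPts (ext hab g)) →
      (periodicPts ⇑f ∩ periodicPts ⇑g).Nonempty := by
    rintro ⟨x, hx, ⟨n, hn, e1⟩, ⟨m, hm, e2⟩⟩
    refine ⟨⟨x, hx⟩, ⟨n, hn, ?_⟩, ⟨m, hm, ?_⟩⟩
    · apply Subtype.ext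
      rw [← ext_iter (hab := hab)]; exact e1
    · apply Subtype.ext
      rw [← ext_iter (hab := hab)]; exact e2
  have hw := word_ext hab f g
  constructor
  · intro H
    apply hfin
    apply nonCross_main S hk hl
    intro M hMab hM hMne hMfix hfM hgM hmin hcount
    refine H ((Subtype.val : Icc a b → ℝ) ⁻¹' M) ?_ ?_ ?_ ?_ ?_ ?_ ?_
    · intro z hz
      apply Subtype.ext
      rw [← hw]
      exact hMfix _ hz
    · refine ⟨hM.closed.preimage continuous_subtype_val, ?_⟩
      rw [preperfect_iff_nhds]
      intro x hx U hU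
      obtain ⟨ε, hε, hεU⟩ := Metric.mem_nhds_iff.1 hU
      obtain ⟨y, hy, hyx⟩ := preperfect_iff_nhds.1 hM.acc (x : ℝ) hx _
        (Metric.ball_mem_nhds (x : ℝ) hε)
      refine ⟨⟨y, hMab hy.2⟩, ⟨hεU hy.1, hy.2⟩, ?_⟩
      intro h
      exact hyx (congrArg Subtype.val h)
    · obtain ⟨x, hx⟩ := hMne
      exact ⟨⟨x, hMab hx⟩, hx⟩
    · ext y
      constructor
      · rintro ⟨x, hx, rfl⟩
        show ((f x : Icc a b) : ℝ) ∈ M
        rw [← ext_val (hab := hab), ← hfM]
        exact mem_image_of_mem _ hx
      · intro hy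
        have hy' : (y : ℝ) ∈ ext hab f '' M := by rw [hfM]; exact hy
        obtain ⟨x, hx, hxy⟩ := hy'
        refine ⟨⟨x, hMab hx⟩, hx, Subtype.ext ?_⟩
        rw [← hxy, ← ext_val (hab := hab)]
    · ext y
      constructor
      · rintro ⟨x, hx, rfl⟩
        show ((g x : Icc a b) : ℝ) ∈ M
        rw [← ext_val (hab := hab), ← hgM]
        exact mem_image_of_mem _ hx
      · intro hy
        have hy' : (y : ℝ) ∈ ext hab g '' M := by rw [hgM]; exact hy
        obtain ⟨x, hx, hxy⟩ := hy'
        refine ⟨⟨x, hMab hx⟩, hx, Subtype.ext ?_⟩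
        rw [← hxy, ← ext_val (hab := hab)]
    · intro C hCM hC hCne hCf hCg
      have h1 : Subtype.val '' C = M := by
        apply hmin
        · rintro _ ⟨x, hx, rfl⟩
          exact hCM hx
        · exact isClosed_Icc.isClosedEmbedding_subtypeVal.isClosedMap _ hC
        · exact hCne.image _
        · rintro _ ⟨x, hx, rfl⟩
          rw [ext_val]
          exact mem_image_of_mem _ (hCf hx)
        · rintro _ ⟨x, hx, rfl⟩
          rw [ext_val]
          exact mem_image_of_mem _ (hCg hx)
      rw [← h1]
      exact (preimage_image_eq _ Subtype.val_injective).symm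
    · refine (countable_of_injective_of_countable_image
        (f := (Subtype.val : Icc a b → ℝ)) Subtype.val_injective.injOn ?_)
      refine hcount.mono ?_
      rintro _ ⟨z, ⟨hz, δ, hδ, hnc⟩, rfl⟩
      refine ⟨hz, δ, hδ, ?_⟩
      intro u hu
      show 0 ≤ ((ext hab f)^[k] ((ext hab g)^[l] u) - z) * (u - z)
      rw [ext_outside hab g hl u, hw]
      rw [abs_lt] at hu
      -- replace `u` by its projection
      rcases lt_or_ge u a with h1 | h1
      · rw [projIcc_of_le_left hab h1.le]
        have h2 := hnc ⟨a, left_mem_Icc.2 hab⟩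
          (by rw [abs_lt]; constructor <;> linarith [z.2.1])
        have h3 : ((z : ℝ)) ≥ a := z.2.1
        rcases eq_or_lt_of_le h3 with h4 | h4
        · have h5 : (⟨a, left_mem_Icc.2 hab⟩ : Icc a b) = z := Subtype.ext h4
          rw [h5]
          have h6 : f^[k] (g^[l] z) = z := by
            apply Subtype.ext
            rw [← hw]; exact hMfix _ hz
          rw [h6]; simp
        · have h5 : ((f^[k] (g^[l] (⟨a, left_mem_Icc.2 hab⟩ : Icc a b)) : Icc a b) : ℝ) ≤ z := by
            by_contra hcon
            push Not at hcon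
            have : (a : ℝ) - z < 0 := by linarith
            simp only at h2
            nlinarith
          nlinarith
      · rcases lt_or_ge b u with h1' | h1'
        · rw [projIcc_of_right_le hab h1'.le]
          have h2 := hnc ⟨b, right_mem_Icc.2 hab⟩
            (by rw [abs_lt]; constructor <;> linarith [z.2.2])
          have h3 : ((z : ℝ)) ≤ b := z.2.2
          rcases eq_or_lt_of_le h3 with h4 | h4
          · have h5 : (⟨b, right_mem_Icc.2 hab⟩ : Icc a b) = z := Subtype.ext h4.symm
            rw [h5]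
            have h6 : f^[k] (g^[l] z) = z := by
              apply Subtype.ext
              rw [← hw]; exact hMfix _ hz
            rw [h6]; simp
          · have h5 : (z : ℝ) ≤
                ((f^[k] (g^[l] (⟨b, right_mem_Icc.2 hab⟩ : Icc a b)) : Icc a b) : ℝ) := by
              by_contra hcon
              push Not at hcon
              have : 0 < (b : ℝ) - z := by linarith
              simp only at h2
              nlinarith
            nlinarith
        · have h2 : projIcc a b hab u = ⟨u, h1, h1'⟩ := projIcc_of_mem hab ⟨h1, h1'⟩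
          rw [h2]
          exact hnc ⟨u, h1, h1'⟩ (abs_lt.2 hu)
  · intro H
    apply hfin
    apply nonCross_cor S hk hl
    refine (H.image (Subtype.val : Icc a b → ℝ)).mono ?_
    rintro z ⟨hz, hz2⟩
    have hzab : z ∈ Icc a b := by
      rw [← hz]
      have : MapsTo (ext hab f) (Icc a b) (Icc a b) := fun y _ => S.rf y
      refine this.iterate k ?_
      obtain ⟨j, rfl⟩ : ∃ j, l = j + 1 := ⟨l - 1, by omega⟩
      rw [iterate_succ_apply']; exact S.rg _
    refine ⟨⟨z, hzab⟩, ⟨?_, ?_⟩, rfl⟩
    · apply Subtype.ext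
      rw [← hw]; exact hz
    · intro hcon
      apply hz2
      rcases hcon with h | ⟨δ, hδ, h⟩
      · left
        refine h.congr ?_ ?_
        · intro x hx
          rw [IccExtend_of_mem hab _ hx]
          exact hw k l ⟨x, hx⟩
        · rw [IccExtend_of_mem hab _ hzab]
          exact hw k l ⟨z, hzab⟩
      · right
        refine ⟨δ, hδ, ?_⟩
        intro u hu hd hfu
        have := h ⟨u, hu⟩ hd (by
          apply Subtype.ext
          rw [← hw]; exact hfu)
        exact congrArg Subtype.val this

end Pool.Agent.Results.MP_4545a8_an.NonCrossing
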