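import Mathlib
import Pool.Agent.Work.MP_4545a8_an.OM.Cor

set_option autoImplicit false

/-!
# Common periodic points of commuting interval maps: a condition on one map

`f, g : [a,b] → [a,b]` continuous and commuting, `h = f^k ∘ g^l` with `(k, l) ≠ (0, 0)`; in
particular `h = f`, with no condition on `g`.
-/

namespace Pool.Agent.Results.MP_4545a8_an.OneMap

open Set Function Topology Filter
open Pool.Agent.MP4545 Pool.Agent.MP4545.OM

variable {a b : ℝ}

lemma word_ext (hab : a ≤ b) (f g : Icc a b → Icc a b) (s t : ℕ) (x : Icc a b) :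
    (ext hab f)^[s] ((ext hab g)^[t] (x : ℝ)) = (f^[s] (g^[t] x) : Icc a b) := by
  rw [ext_iter, ext_iter]

lemma word_iter_ext (hab : a ≤ b) (f g : Icc a b → Icc a b) (s t j : ℕ) (x : Icc a b) :
    ((ext hab f)^[s] ∘ (ext hab g)^[t])^[j] (x : ℝ) = ((f^[s] ∘ g^[t])^[j] x : Icc a b) := by
  induction j with
  | zero => rfl
  | succ j ih =>
    rw [iterate_succ_apply', iterate_succ_apply', ih]
    exact word_ext hab f g s t _

/-- Let `f, g` be commuting continuous self-maps of `[a,b]` and `h = f^k ∘ g^l`, `(k, l) ≠ (0, 0)`.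

(1) Suppose that for every nonempty perfect set `M` of fixed points of `h` with
`f(M) = M = g(M)` which is a minimal set of the pair `f, g` there are `x, y ∈ [a,b]` and `j ≥ 1` with
`h^j([x,y]) ⊆ [x,y]` such that `M` meets `(x,y)` and is not contained in `[x,y]`. Then `f` and `g`
have a common periodic point.

(2) Suppose that all but countably many fixed points `z` of `h` are such that `h` is
differentiable at `z` or `z` is isolated in the fibre `h⁻¹(z)`. Then `f` and `g` have a common
periodic point. -/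
theorem result (a b : ℝ) (hab : a ≤ b) (f g : C(Icc a b, Icc a b)) (hfg : ⇑f ∘ ⇑g = ⇑g ∘ ⇑f)
    (k l : ℕ) (hkl : 0 < k + l) :
    ((∀ M : Set (Icc a b), (∀ z ∈ M, f^[k] (g^[l] z) = z) → Perfect M → M.Nonempty →
        f '' M = M → g '' M = M →
        (∀ C ⊆ M, IsClosed C → C.Nonempty → MapsTo f C C → MapsTo g C C → C = M) →
        ∃ (x y : Icc a b) (j : ℕ), 0 < j ∧ MapsTo (f^[k] ∘ g^[l])^[j] (Icc x y) (Icc x y) ∧
          (M ∩ Ioo x y).Nonempty ∧ ¬ M ⊆ Icc x y) →
      (periodicPts ⇑f ∩ periodicPts ⇑g).Nonempty) ∧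
    ({z : Icc a b | f^[k] (g^[l] z) = z ∧
        ¬ (DifferentiableWithinAt ℝ
            (IccExtend hab fun x : Icc a b => ((f^[k] (g^[l] x) : Icc a b) : ℝ)) (Icc a b) z ∨
          ∃ δ > 0, ∀ u : Icc a b, |(u : ℝ) - z| < δ → f^[k] (g^[l] u) = z → u = z)}.Countable →
      (periodicPts ⇑f ∩ periodicPts ⇑g).Nonempty) := by
  have hc : Function.Commute ⇑f ⇑g := fun x => congrFun hfg x
  have S := ext_sys (hab := hab) f.continuous g.continuous hc
  have hfin : (∃ x ∈ Icc a b, x ∈ periodicPts (ext hab f) ∩ periodicPts (ext hab g)) →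
      (periodicPts ⇑f ∩ periodicPts ⇑g).Nonempty := by
    rintro ⟨x, hx, ⟨n, hn, e1⟩, ⟨m, hm, e2⟩⟩
    refine ⟨⟨x, hx⟩, ⟨n, hn, ?_⟩, ⟨m, hm, ?_⟩⟩
    · apply Subtype.ext
      rw [← ext_iter (hab := hab)]; exact e1
    · apply Subtype.ext
      rw [← ext_iter (hab := hab)]; exact e2
  have hw := word_ext hab f g
  constructor
  · intro H
    apply hfin
    apply oneMap_main S hkl
    intro M hMab hM hMne hMfix hfM hgM hmin
    have HM := H ((Subtype.val : Icc a b → ℝ) ⁻¹' M)
    have HM' : ∃ (x y : Icc a b) (j : ℕ), 0 < j ∧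
        MapsTo (f^[k] ∘ g^[l])^[j] (Icc x y) (Icc x y) ∧
        ((Subtype.val : Icc a b → ℝ) ⁻¹' M ∩ Ioo x y).Nonempty ∧
        ¬ (Subtype.val : Icc a b → ℝ) ⁻¹' M ⊆ Icc x y := by
      apply HM
      · intro z hz
        apply Subtype.ext
        rw [← hw]
        exact hMfix _ hz
      · refine ⟨hM.closed.preimage continuous_subtype_val, ?_⟩
        rw [preperfect_iff_nhds]
        intro x hx U hU
        obtain ⟨ε, hε, hεU⟩ := Metric.mem_nhds_iff.1 hU
        obtain ⟨y, hy, hyx⟩ := preperfect_iff_nhds.1 hM.acc (x : ℝ) hx _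
          (Metric.ball_mem_nhds (x : ℝ) hε)
        refine ⟨⟨y, hMab hy.2⟩, ⟨hεU hy.1, hy.2⟩, ?_⟩
        intro h
        exact hyx (congrArg Subtype.val h)
      · obtain ⟨x, hx⟩ := hMne
        exact ⟨⟨x, hMab hx⟩, hx⟩
      · ext y
        constructor
        · rintro ⟨x, hx, rfl⟩
          show ((f x : Icc a b) : ℝ) ∈ M
          rw [← ext_val (hab := hab), ← hfM]
          exact mem_image_of_mem _ hx
        · intro hy
          have hy' : (y : ℝ) ∈ ext hab f '' M := by rw [hfM]; exact hy
          obtain ⟨x, hx, hxy⟩ := hy'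
          refine ⟨⟨x, hMab hx⟩, hx, Subtype.ext ?_⟩
          rw [← hxy, ← ext_val (hab := hab)]
      · ext y
        constructor
        · rintro ⟨x, hx, rfl⟩
          show ((g x : Icc a b) : ℝ) ∈ M
          rw [← ext_val (hab := hab), ← hgM]
          exact mem_image_of_mem _ hx
        · intro hy
          have hy' : (y : ℝ) ∈ ext hab g '' M := by rw [hgM]; exact hy
          obtain ⟨x, hx, hxy⟩ := hy'
          refine ⟨⟨x, hMab hx⟩, hx, Subtype.ext ?_⟩
          rw [← hxy, ← ext_val (hab := hab)]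
      · intro C hCM hC hCne hCf hCg
        have h1 : Subtype.val '' C = M := by
          apply hmin
          · rintro _ ⟨x, hx, rfl⟩
            exact hCM hx
          · exact isClosed_Icc.isClosedEmbedding_subtypeVal.isClosedMap _ hC
          · exact hCne.image _
          · rintro _ ⟨x, hx, rfl⟩
            rw [ext_val]
            exact mem_image_of_mem _ (hCf hx)
          · rintro _ ⟨x, hx, rfl⟩
            rw [ext_val]
            exact mem_image_of_mem _ (hCg hx)
        rw [← h1]
        exact (preimage_image_eq _ Subtype.val_injective).symm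
    obtain ⟨x, y, j, hj, hmap, ⟨w, hwM, hw'⟩, hnot⟩ := HM'
    refine ⟨x, y, j, hj, ?_, ⟨w, hwM, hw'.1, hw'.2⟩, ?_⟩
    · rintro u ⟨hu, huab⟩
      have h1 : (⟨u, huab⟩ : Icc a b) ∈ Icc x y := ⟨hu.1, hu.2⟩
      have h2 := hmap h1
      have h3 := word_iter_ext hab f g k l j ⟨u, huab⟩
      simp only at h3
      rw [h3]
      exact ⟨h2.1, h2.2⟩
    · intro hsub
      apply hnot
      intro u hu
      have := hsub hu
      exact ⟨this.1, this.2⟩
  · intro H
    apply hfin
    apply oneMap_cor S hkl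
    refine (H.image (Subtype.val : Icc a b → ℝ)).mono ?_
    rintro z ⟨hz, hz2⟩
    have hzab : z ∈ Icc a b := by
      rw [← hz]
      exact word_mem S hkl z
    refine ⟨⟨z, hzab⟩, ⟨?_, ?_⟩, rfl⟩
    · apply Subtype.ext
      rw [← hw]; exact hz
    · intro hcon
      apply hz2
      rcases hcon with h | ⟨δ, hδ, h⟩
      · left
        refine h.congr ?_ ?_
        · intro x hx
          rw [IccExtend_of_mem hab _ hx]
          exact hw k l ⟨x, hx⟩
        · rw [IccExtend_of_mem hab _ hzab]
          exact hw k l ⟨z, hzab⟩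
      · right
        refine ⟨δ, hδ, ?_⟩
        intro u hu hd hfu
        have := h ⟨u, hu⟩ hd (by
          apply Subtype.ext
          rw [← hw]; exact hfu)
        exact congrArg Subtype.val this

end Pool.Agent.Results.MP_4545a8_an.OneMap
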