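import Mathlib
import Pool.Agent.Work.MP_4545a8_an.Rank

set_option autoImplicit false

/-!
# Common periodic points of commuting interval maps: intervals of zero entropy

`f, g : [a,b] → [a,b]` continuous and commuting. Topological entropy (of a map on a subset) is
Mathlib's `Dynamics.coverEntropy`.
-/

namespace Pool.Agent.Results.MP_4545a8_an.RankTwo

open Set Function Dynamics
open Pool.Agent.MP4545

variable {a b : ℝ}

lemma ext_word (hab : a ≤ b) (f g : Icc a b → Icc a b) (s t : ℕ) (x : Icc a b) :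
    ((ext hab f)^[s] ∘ (ext hab g)^[t]) (x : ℝ) = ((f^[s] ∘ g^[t]) x : Icc a b) := by
  simp only [comp_apply]
  rw [ext_iter, ext_iter]

lemma ext_word_image (hab : a ≤ b) (f g : Icc a b → Icc a b) (J : Set (Icc a b)) (u : ℕ × ℕ) :
    Jw (ext hab f) (ext hab g) (Subtype.val '' J) u =
      Subtype.val '' ((f^[u.1] ∘ g^[u.2]) '' J) := by
  unfold Jw
  rw [image_image, image_image]
  exact image_congr fun x _ => ext_word hab f g u.1 u.2 x

/-- Let `f, g` be commuting continuous self-maps of `[a,b]`, `(i,j) ≠ (0,0)`, and let `J` be an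
interval on which `f^i ∘ g^j` has topological entropy zero. If `f^s g^t(J)` meets `f^s' g^t'(J)`
and `f^p g^q(J)` meets `f^p' g^q'(J)`, where `(s'-s, t'-t)` and `(p'-p, q'-q)` are linearly
independent, then `f` and `g` have a common periodic point. The case `J = [a,b]`: this holds
whenever some `f^i ∘ g^j` has topological entropy zero. -/
theorem result (a b : ℝ) (hab : a ≤ b) (f g : C(Icc a b, Icc a b)) (hfg : ⇑f ∘ ⇑g = ⇑g ∘ ⇑f)
    (i j : ℕ) (hij : (i, j) ≠ (0, 0)) (J : Set (Icc a b)) (hJ : J.OrdConnected)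
    (h0 : coverEntropy (f^[i] ∘ g^[j]) J = 0) (s t s' t' p q p' q' : ℕ)
    (h1 : (((f^[s] ∘ g^[t]) '' J) ∩ ((f^[s'] ∘ g^[t']) '' J)).Nonempty)
    (h2 : (((f^[p] ∘ g^[q]) '' J) ∩ ((f^[p'] ∘ g^[q']) '' J)).Nonempty)
    (hdet : ((s' : ℤ) - s) * ((q' : ℤ) - q) ≠ ((t' : ℤ) - t) * ((p' : ℤ) - p)) :
    (periodicPts ⇑f ∩ periodicPts ⇑g).Nonempty := by
  have hc : Function.Commute ⇑f ⇑g := fun x => congrFun hfg x
  have S := ext_sys (hab := hab) f.continuous g.continuous hc
  have hword : (ext hab f)^[i] ∘ (ext hab g)^[j] = (ext hab f)^[i] ∘ (ext hab g)^[j] := rfl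
  have hsemi : Semiconj (Subtype.val : Icc a b → ℝ) ((⇑f)^[i] ∘ (⇑g)^[j])
      ((ext hab f)^[i] ∘ (ext hab g)^[j]) := fun x => (ext_word hab f g i j x).symm
  have hent : coverEntropy ((ext hab f)^[i] ∘ (ext hab g)^[j]) (Subtype.val '' J) ≤ 0 := by
    have := coverEntropy_image_of_comap (inferInstance : UniformSpace ℝ) hsemi J
    rw [this]
    exact h0.le
  have hpre : IsPreconnected (Subtype.val '' J : Set ℝ) := by
    have : (Subtype.val '' J : Set ℝ).OrdConnected := by
      refine ⟨?_⟩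
      rintro _ ⟨x, hx, rfl⟩ _ ⟨y, hy, rfl⟩ z hz
      exact ⟨⟨z, x.2.1.trans hz.1, hz.2.trans y.2.2⟩, hJ.out hx hy ⟨hz.1, hz.2⟩, rfl⟩
    exact this.isPreconnected
  have hsub : (Subtype.val '' J : Set ℝ) ⊆ Icc a b := by
    rintro _ ⟨x, -, rfl⟩; exact x.2
  obtain ⟨x, hx, ⟨n, hn, e1⟩, ⟨m, hm, e2⟩⟩ := rank_two S (ext_uc f.continuous)
    (ext_uc g.continuous) hij hpre hsub hent (u := (s, t)) (u' := (s', t')) (v := (p, q))
    (v' := (p', q')) (by
      rw [ext_word_image, ext_word_image, ← image_inter Subtype.val_injective]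
      exact h1.image _) (by
      rw [ext_word_image, ext_word_image, ← image_inter Subtype.val_injective]
      exact h2.image _) hdet
  refine ⟨⟨x, hx⟩, ⟨n, hn, ?_⟩, ⟨m, hm, ?_⟩⟩
  · apply Subtype.ext
    rw [← ext_iter (hab := hab)]; exact e1
  · apply Subtype.ext
    rw [← ext_iter (hab := hab)]; exact e2

end Pool.Agent.Results.MP_4545a8_an.RankTwo
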