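import Mathlib
import Pool.Agent.Work.MP_4545a8_an.NonCross

set_option autoImplicit false

/-!
# Commuting interval maps without common periodic point: return times to invariant intervals

`f, g : [a,b] → [a,b]` continuous and commuting, without common periodic point.
-/

namespace Pool.Agent.Results.MP_4545a8_an.ReturnTimes

open Set Function Topology Filter
open Pool.Agent.MP4545

variable {a b : ℝ}

/-- words are systems -/
lemma word_mem {F G : ℝ → ℝ} (S : Sys F G a b) {p q : ℕ} (h : 0 < p + q) (x : ℝ) :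
    F^[p] (G^[q] x) ∈ Icc a b := by
  rcases Nat.eq_zero_or_pos p with hp | hp
  · subst hp
    obtain ⟨j, rfl⟩ : ∃ j, q = j + 1 := ⟨q - 1, by omega⟩
    rw [iterate_succ_apply' G]; exact S.rg _
  · obtain ⟨j, rfl⟩ : ∃ j, p = j + 1 := ⟨p - 1, by omega⟩
    rw [iterate_succ_apply' F]; exact S.rf _

lemma word_word {F G : ℝ → ℝ} (hFG : Function.Commute F G) (p q p' q' : ℕ) (x : ℝ) :
    F^[p] (G^[q] (F^[p'] (G^[q'] x))) = F^[p + p'] (G^[q + q'] x) := by
  rw [iterate_add_apply, iterate_add_apply, (hFG.iterate_iterate p' q).eq (G^[q'] x)]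

theorem main {F G : ℝ → ℝ} (S : Sys F G a b)
    (hno : ∀ x ∈ Icc a b, x ∉ periodicPts F ∩ periodicPts G) {k l s t : ℕ} (hk : 0 < k)
    (hl : 0 < l) (hst : s * l ≠ t * k) {x : ℝ} (hx : F^[k] (G^[l] x) = x) {A : Set ℝ}
    (hA1 : IsClosed A) (hA2 : OrdConnected A) (hA3 : ∀ y ∈ A, F^[k] (G^[l] y) ∈ A) :
    {n : ℕ | (F^[s] ∘ G^[t])^[n] x ∈ A}.Subsingleton ∨
      ∃ d r : ℕ, 0 < d ∧ {n : ℕ | (F^[s] ∘ G^[t])^[n] x ∈ A} = {n | n ≡ r [MOD d]} := by
  have hFG : Function.Commute F G := fun x => S.comm x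
  have hN0 : 0 < s + t := by
    rcases Nat.eq_zero_or_pos (s + t) with h | h
    · exfalso
      have h1 : s = 0 := by omega
      have h2 : t = 0 := by omega
      subst h1; subst h2
      simp at hst
    · exact h
  set N := s + t with hN
  have h1 : s ≤ N * k := by nlinarith
  have h2 : t ≤ N * l := by nlinarith
  obtain ⟨s', hs'⟩ : ∃ s', N * k = s + s' := ⟨N * k - s, by omega⟩
  obtain ⟨t', ht'⟩ : ∃ t', N * l = t + t' := ⟨N * l - t, by omega⟩
  have hpos' : 0 < s' + t' := by nlinarith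
  have S' : Sys (F^[s] ∘ G^[t]) (F^[s'] ∘ G^[t']) a b := by
    refine ⟨(S.cf.iterate s).comp (S.cg.iterate t), (S.cf.iterate s').comp (S.cg.iterate t'),
      ?_, fun y => word_mem S hN0 y, fun y => word_mem S hpos' y⟩
    intro y
    show F^[s] (G^[t] (F^[s'] (G^[t'] y))) = F^[s'] (G^[t'] (F^[s] (G^[t] y)))
    rw [word_word hFG, word_word hFG, Nat.add_comm s, Nat.add_comm t]
  have hfix : ∀ y, F^[k] (G^[l] y) = y → F^[s] (G^[t] (F^[s'] (G^[t'] y))) = y := by
    intro y hy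
    rw [word_word hFG, ← hs', ← ht']
    exact mul_iter hFG hy N
  have hno' : NoCommon (F^[s] ∘ G^[t]) (F^[s'] ∘ G^[t']) := by
    intro y n m hn hm e1 e2
    have hy : y ∈ Icc a b := by
      obtain ⟨j, rfl⟩ : ∃ j, n = j + 1 := ⟨n - 1, by omega⟩
      rw [← e1, iterate_succ_apply']; exact word_mem S hN0 _
    refine hno y hy (indep hFG ?_ hn hm e1 e2)
    intro h
    apply hst
    have h3 : s * (N * l) = t * (N * k) := by
      rw [hs', ht']
      calc s * (t + t') = s * t + s * t' := by ring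
        _ = s * t + t * s' := by rw [h]
        _ = t * (s + s') := by ring
    have h4 : N * (s * l) = N * (t * k) := by
      calc N * (s * l) = s * (N * l) := by ring
        _ = t * (N * k) := h3
        _ = N * (t * k) := by ring
    exact Nat.eq_of_mul_eq_mul_left hN0 h4
  have hA3' : ∀ y ∈ A, F^[s] (G^[t] (F^[s'] (G^[t'] y))) ∈ A := by
    intro y hy
    rw [word_word hFG, ← hs', ← ht']
    have h3 : F^[N * k] (G^[N * l] y) = (F^[k] ∘ G^[l])^[N] y := by
      rw [(hFG.iterate_iterate k l).comp_iterate, ← iterate_mul, ← iterate_mul,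
        Nat.mul_comm k, Nat.mul_comm l]
      rfl
    rw [h3]
    exact (show MapsTo (F^[k] ∘ G^[l]) A A from fun y hy => hA3 y hy).iterate N hy
  exact returnTimes S' hno' (hfix x hx) hA1 hA2 hA3'

/-- Let `f, g` be commuting continuous self-maps of `[a,b]` without common periodic point, let
`h = f^k ∘ g^l` with `k, l ≥ 1`, let `x` be a fixed point of `h` and `A` a closed interval with
`h(A) ⊆ A`. Let `s * l ≠ t * k`. Then the set of times `n ≥ 0` at which the orbit of `x` under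
`f^s ∘ g^t` is in `A` has at most one element or is the set of all `n ≥ 0` in a residue class. -/
theorem result (a b : ℝ) (f g : C(Icc a b, Icc a b)) (hfg : ⇑f ∘ ⇑g = ⇑g ∘ ⇑f)
    (hno : periodicPts ⇑f ∩ periodicPts ⇑g = ∅) (k l : ℕ) (hk : 0 < k) (hl : 0 < l)
    (x : Icc a b) (hx : f^[k] (g^[l] x) = x)
    (A : Set (Icc a b)) (hA : IsClosed A) (hA' : A.OrdConnected) (hinv : MapsTo (f^[k] ∘ g^[l]) A A)
    (s t : ℕ) (hst : s * l ≠ t * k) :
    {n : ℕ | (f^[s] ∘ g^[t])^[n] x ∈ A}.Subsingleton ∨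
      ∃ d r : ℕ, 0 < d ∧ {n : ℕ | (f^[s] ∘ g^[t])^[n] x ∈ A} = {n | n ≡ r [MOD d]} := by
  have hab : a ≤ b := x.2.1.trans x.2.2
  have hc : Function.Commute ⇑f ⇑g := fun x => congrFun hfg x
  have S := ext_sys (hab := hab) f.continuous g.continuous hc
  have hw : ∀ s t : ℕ, ∀ y : Icc a b, (ext hab f)^[s] ((ext hab g)^[t] (y : ℝ)) =
      (f^[s] (g^[t] y) : Icc a b) := fun s t y => by rw [ext_iter, ext_iter]
  have hit : ∀ n : ℕ, ((ext hab f)^[s] ∘ (ext hab g)^[t])^[n] (x : ℝ) =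
      ((f^[s] ∘ g^[t])^[n] x : Icc a b) := by
    intro n
    induction n with
    | zero => rfl
    | succ n ih =>
      rw [iterate_succ_apply', iterate_succ_apply', ih]
      exact hw s t _
  have hmem : ∀ n : ℕ, (f^[s] ∘ g^[t])^[n] x ∈ A ↔
      ((ext hab f)^[s] ∘ (ext hab g)^[t])^[n] (x : ℝ) ∈ (Subtype.val '' A : Set ℝ) := by
    intro n
    rw [hit n]
    constructor
    · intro h; exact mem_image_of_mem _ h
    · rintro ⟨y, hy, e⟩
      rwa [← Subtype.ext e]
  simp only [hmem]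
  refine main S ?_ hk hl hst ?_ ?_ ?_ ?_
  · rintro y hy ⟨⟨n, hn, e1⟩, ⟨m, hm, e2⟩⟩
    have : (⟨y, hy⟩ : Icc a b) ∈ periodicPts ⇑f ∩ periodicPts ⇑g := by
      refine ⟨⟨n, hn, ?_⟩, ⟨m, hm, ?_⟩⟩
      · apply Subtype.ext
        rw [← ext_iter (hab := hab)]; exact e1
      · apply Subtype.ext
        rw [← ext_iter (hab := hab)]; exact e2
    rw [hno] at this
    exact this
  · rw [hw, hx]
  · exact isClosed_Icc.isClosedEmbedding_subtypeVal.isClosedMap _ hA
  · refine ⟨?_⟩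
    rintro _ ⟨y, hy, rfl⟩ _ ⟨z, hz, rfl⟩ w hw'
    have hwab : w ∈ Icc a b := ⟨y.2.1.trans hw'.1, hw'.2.trans z.2.2⟩
    exact ⟨⟨w, hwab⟩, hA'.out hy hz ⟨hw'.1, hw'.2⟩, rfl⟩
  · rintro _ ⟨y, hy, rfl⟩
    rw [hw]
    exact mem_image_of_mem _ (hinv hy)

end Pool.Agent.Results.MP_4545a8_an.ReturnTimes
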